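import Pool.Graph.R_pool_sql_team_seeded_63374d34.N803.PQ.Loc2
import Pool.Agent.H458.AR.Fld

set_option autoImplicit false
set_option linter.all false

open IsDedekindDomain NumberField Polynomial
open scoped Classical

namespace Pool.Agent.H407.AR458

open Pool.Agent.N922.PQ
open Pool.Agent.H458.AR
open Pool.Agent.N874.PP (Ev Sq1 U0)

/-- A subset of index at most two. -/
theorem card_le_two {V : Type} [AddCommGroup V] [Fintype V] (H K : Finset V) (hHK : H ⊆ K)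
    (h : ∀ x ∈ K, x ∉ H → ∀ y ∈ K, y ∉ H → x + y ∈ H) (hn : ∀ x : V, x + x = 0)
    (h0 : (0 : V) ∈ H) :
    K.card ≤ 2 * H.card := by
  by_cases hx : ∃ x ∈ K, x ∉ H
  · obtain ⟨x, hxK, hxH⟩ := hx
    have hsub : K ⊆ H ∪ H.image (fun y => x + y) := by
      intro y hy
      by_cases hyH : y ∈ H
      · exact Finset.mem_union_left _ hyH
      · refine Finset.mem_union_right _ (Finset.mem_image.2 ⟨x + y, h x hxK hxH y hy hyH, ?_⟩)
        rw [← add_assoc, hn, zero_add]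
    calc K.card ≤ (H ∪ H.image (fun y => x + y)).card := Finset.card_le_card hsub
      _ ≤ H.card + (H.image (fun y => x + y)).card := Finset.card_union_le _ _
      _ ≤ H.card + H.card := Nat.add_le_add_left Finset.card_image_le _
      _ = 2 * H.card := by ring
  · push Not at hx
    have : K ⊆ H := fun y hy => hx y hy
    have := Finset.card_le_card this
    omega

theorem loc2_sq {L : Type} [Field L] [CharZero L] {a b : ℤ} {θ : L} (hc : IsCub a b θ) (y : L) :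
    Loc2 a b θ (y ^ 2) := by
  intro h hh
  obtain ⟨p, hp⟩ := hc.exists_poly y
  left
  refine ⟨p.map (algebraMap ℚ ℚ_[2]), ?_⟩
  have h3 : ff ℚ a b ∣ h - p ^ 2 := by
    rw [← hc.minpoly_eq]
    apply minpoly.dvd
    rw [map_sub, hh, map_pow, hp, sub_self]
  have h4 := Polynomial.map_dvd (algebraMap ℚ ℚ_[2]) h3
  rw [ff_map, Polynomial.map_sub, Polynomial.map_pow] at h4
  exact h4

theorem isSquare_of_mul_sq {F : Type} [Field F] {x y : F} (hy : y ≠ 0) (hy2 : IsSquare y)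
    (h : IsSquare (x * y)) : IsSquare x := by
  have : x = x * y / y := by field_simp
  rw [this]
  exact h.div hy2

theorem vdm (h1 : S_SUN) (h2 : S_PLC) (h3 : S_NSG) (h4 : S_IX2) : S_VDM := by
  intro L O _ _ _ _ _ _ _ a b θ X S T s A B hc hS hT hF h4ab 𝔮 h𝔮
  have hnt2 : ∀ z : ℤ, ¬ (2 : ℤ) ∣ z ^ 3 + a * z + b := fam_nt hT hF hT.1
  have hodd : Odd a := by
    have hb := hnt2 0
    rw [← Int.not_even_iff_odd]
    intro ha
    apply hb
    have hb2 : (2 : ℤ) ∣ b := by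
      have h2a : (2 : ℤ) ∣ a := ha.two_dvd
      omega
    simpa using hb2
  have hPLM : S_PLM := Pool.Agent.N803.PQ.plm
  have hpl : Fintype.card (InfinitePlace L) = 2 := h2 L a b θ hc hF.pa
  have hinj : Function.Injective (fun Q : S => 𝔮 (Q : ℤ)) := by
    intro Q Q' hQ
    have e : 𝔮 (Q : ℤ) = 𝔮 (Q' : ℤ) := hQ
    apply Subtype.ext
    refine below_unique (𝔓 := 𝔮 (Q : ℤ)) (hS Q Q.2).1 (hS Q' Q'.2).1 (h𝔮 Q Q.2).1 ?_
    rw [e]
    exact (h𝔮 Q' Q'.2).1
  obtain ⟨g, hg0, hgev, hgmul, hgsq⟩ := h1 L O hpl S (fun Q : S => 𝔮 (Q : ℤ)) hinj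
  have hev : ∀ c, ∀ 𝔓 : HeightOneSpectrum O, (∀ Q ∈ S, 𝔓 ≠ 𝔮 Q) → Ev 𝔓 (g c) :=
    fun c 𝔓 h => hgev c 𝔓 fun Q => h Q Q.2
  have hnsg : ∀ c, IsSquare (Algebra.norm ℚ (g c)) ∨ IsSquare (-Algebra.norm ℚ (g c)) :=
    fun c => h3 L O a b θ hc hF.sq S
      (fun Q hQ => ⟨(hS Q hQ).1.2, hF.rb Q hQ, fam_ns hS hF hQ⟩) 𝔮 h𝔮 (g c) (hg0 c) (hev c)
  have hN0 : ∀ c, Algebra.norm ℚ (g c) ≠ 0 := fun c => Algebra.norm_ne_zero_iff.2 (hg0 c)
  -- the norms
  have hNmul : ∀ c c', IsSquare (Algebra.norm ℚ (g c) * Algebra.norm ℚ (g c') *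
      Algebra.norm ℚ (g (c + c'))) := by
    intro c c'
    obtain ⟨y, hy⟩ := hgmul c c'
    refine ⟨Algebra.norm ℚ y, ?_⟩
    rw [← map_mul, ← map_mul, ← map_mul, hy]
  have hNadd : ∀ c c', IsSquare (Algebra.norm ℚ (g c) * Algebra.norm ℚ (g c')) →
      IsSquare (Algebra.norm ℚ (g (c + c'))) := by
    intro c c' h
    refine isSquare_of_mul_sq (mul_ne_zero (hN0 c) (hN0 c')) h ?_
    rw [mul_comm]
    exact hNmul c c'
  have hLadd : ∀ c c', Loc2 a b θ (g c * g c') → Loc2 a b θ (g (c + c')) := by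
    intro c c' h
    obtain ⟨y, hy⟩ := hgmul c c'
    have hne : g c * g c' ≠ 0 := mul_ne_zero (hg0 c) (hg0 c')
    have e : g (c + c') = (g c * g c') * (y / (g c * g c')) ^ 2 := by
      have hy' : y ^ 2 = g c * g c' * g (c + c') := by rw [hy, sq]
      rw [div_pow, hy']
      have h1' := hg0 c
      have h2' := hg0 c'
      field_simp
    rw [e]
    exact loc2_mul hPLM hc hnt2 h (loc2_sq hc _)
  have hdouble : ∀ x : (Fin 2 → ZMod 2) × (S → ZMod 2), x + x = 0 := by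
    intro x
    refine Prod.ext ?_ ?_
    · funext i
      exact CharTwo.add_self_eq_zero _
    · funext i
      exact CharTwo.add_self_eq_zero _
  let H1 : Finset ((Fin 2 → ZMod 2) × (S → ZMod 2)) :=
    Finset.univ.filter fun c => IsSquare (Algebra.norm ℚ (g c))
  let H2 : Finset ((Fin 2 → ZMod 2) × (S → ZMod 2)) :=
    Finset.univ.filter fun c => IsSquare (Algebra.norm ℚ (g c)) ∧ Loc2 a b θ (g c)
  have hmem1 : ∀ c, c ∈ H1 ↔ IsSquare (Algebra.norm ℚ (g c)) := fun c => by simp [H1]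
  have hmem2 : ∀ c, c ∈ H2 ↔ IsSquare (Algebra.norm ℚ (g c)) ∧ Loc2 a b θ (g c) :=
    fun c => by simp [H2]
  have hzsq : IsSquare (g 0) := by
    have h := hgmul 0 0
    rw [add_zero] at h
    refine isSquare_of_mul_sq (mul_ne_zero (hg0 0) (hg0 0)) ⟨g 0, rfl⟩ ?_
    rw [mul_comm]
    exact h
  have hz2 : (0 : (Fin 2 → ZMod 2) × (S → ZMod 2)) ∈ H2 := by
    rw [hmem2]
    obtain ⟨y, hy⟩ := hzsq
    refine ⟨⟨Algebra.norm ℚ y, by rw [hy, map_mul]⟩, ?_⟩
    rw [hy, ← sq]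
    exact loc2_sq hc y
  have hz1 : (0 : (Fin 2 → ZMod 2) × (S → ZMod 2)) ∈ H1 := (hmem1 _).2 ((hmem2 _).1 hz2).1
  have hc1 : (Finset.univ : Finset ((Fin 2 → ZMod 2) × (S → ZMod 2))).card ≤ 2 * H1.card := by
    refine card_le_two H1 Finset.univ (Finset.subset_univ _) ?_ hdouble hz1
    intro x _ hx y _ hy
    rw [hmem1] at hx hy ⊢
    refine hNadd x y ?_
    have e : Algebra.norm ℚ (g x) * Algebra.norm ℚ (g y) =
        (-Algebra.norm ℚ (g x)) * (-Algebra.norm ℚ (g y)) := by ring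
    rw [e]
    exact ((hnsg x).resolve_left hx).mul ((hnsg y).resolve_left hy)
  have hc2 : H1.card ≤ 2 * H2.card := by
    refine card_le_two H2 H1 (fun c hc => (hmem1 c).2 ((hmem2 c).1 hc).1) ?_ hdouble hz2
    intro x hx1 hx y hy1 hy
    rw [hmem1] at hx1 hy1
    rw [hmem2] at hx hy ⊢
    have hx' : ¬ Loc2 a b θ (g x) := fun h => hx ⟨hx1, h⟩
    have hy' : ¬ Loc2 a b θ (g y) := fun h => hy ⟨hy1, h⟩
    refine ⟨hNadd x y (hx1.mul hy1), hLadd x y ?_⟩
    exact h4 L a b θ hc hodd h4ab (g x) (g y) (hg0 x) (hg0 y) hx1 hy1 hx' hy'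
  have hcard : Fintype.card ((Fin 2 → ZMod 2) × (S → ZMod 2)) = 4 * Fintype.card (S → ZMod 2) := by
    rw [Fintype.card_prod]
    congr 1
  have hle : Fintype.card (S → ZMod 2) ≤ Fintype.card H2 := by
    rw [Fintype.card_coe]
    rw [Finset.card_univ, hcard] at hc1
    omega
  obtain ⟨φ⟩ := Function.Embedding.nonempty_of_card_le hle
  refine ⟨fun c => g (φ c : (Fin 2 → ZMod 2) × (S → ZMod 2)), fun c => ?_, fun c c' h => ?_⟩
  · have hm := (hmem2 _).1 (φ c).2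
    exact ⟨hg0 _, hm.1, hm.2, hev _⟩
  · apply φ.injective
    apply Subtype.ext
    have hs : IsSquare (g ((φ c : (Fin 2 → ZMod 2) × (S → ZMod 2)) + (φ c'))) := by
      refine isSquare_of_mul_sq (mul_ne_zero (hg0 (φ c)) (hg0 (φ c'))) h ?_
      rw [mul_comm]
      exact hgmul _ _
    have hz := hgsq _ hs
    have h5 := hdouble (φ c' : (Fin 2 → ZMod 2) × (S → ZMod 2))
    exact add_right_cancel (hz.trans h5.symm)

end Pool.Agent.H407.AR458
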